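import Pool.Agent.H17.MV.PrimeProgressions

/-!
# Packing the progressions `A_p`, `p ≤ √n` prime

We prove that `m_{P(√n)}(n) ~ (4/3) n^{3/2} / ln n`.

* `prog n d` is `A_d = {d, 2d, …, ⌊n/d⌋ d}`,
* `Packs n D m` says that the family `A_d` (`d ∈ D`) packs into `[m]`,
* `mPack n D` is the least `m` such that the family packs into `[m]`.

Upper bound: the primes are split into `K` classes `k√n/K < p ≤ (k+1)√n/K` and each class is packed
greedily: consecutive starting points differ by at most about `(1 - (k/K)² + 1/K) n + √n`; the existence
of a good starting point is a Kronecker type statement modulo the new prime, proved with the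
nonnegative kernel `cos²(πθ)^m`, and only boundedly many primes are exceptional.
-/

open Finset Filter Topology

namespace Pool.Agent.Results.MP_fdcff6_co.PrimeProgressions

open Pool.H17.MV.PrimeProgressions

/-- **Main theorem.** `m_{P(√n)}(n)` (the least `m` such that the progressions `A_p`, `p ≤ √n` prime, pack
into `[m]`, which exists for every `n`) is asymptotic to `(4/3) n^{3/2} / ln n`. -/
theorem result :
    (∀ n : ℕ, IsLeast {m : ℕ | Packs n (primesUpToSqrt n) m} (mPack n (primesUpToSqrt n))) ∧
    Tendsto (fun n : ℕ => (mPack n (primesUpToSqrt n) : ℝ) /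
      (4 / 3 * ((n : ℝ) ^ (3 / 2 : ℝ) / Real.log n))) atTop (𝓝 1) :=
  Pool.H17.MV.PrimeProgressions.result

end Pool.Agent.Results.MP_fdcff6_co.PrimeProgressions
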